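import Mathlib
import Pool.Agent.Helper95.SC.Defs

/-!
# Project F2: graphs of maximum degree two are strongly 4-colourable (MP_7b75b3_co)

THEOREM.  Every finite graph with maximum degree at most 2 is strongly 4-colourable; as the
4-cycle is not strongly 3-colourable, `f(2) = 4`.

`V` is the vertex set, `G` the graph, `b : V → κ` the block of a vertex, all blocks have 4 elements.
`X` is always a finite set of vertices (the representatives), `P` a finite set of blocks
(the protected blocks).  Everything is elementary finite graph theory.
-/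

namespace F2

open Finset

/-- At most two neighbours at every vertex. -/
def Deg2 {V : Type} (G : SimpleGraph V) : Prop :=
  ∀ x p q r, G.Adj x p → G.Adj x q → G.Adj x r → p = q ∨ p = r ∨ q = r

/-- Every block has four elements. -/
def Four {V κ : Type} [Fintype V] [DecidableEq κ] (b : V → κ) : Prop :=
  ∀ i, (univ.filter (fun v => b v = i)).card = 4

/-- There is a proper 4-colouring which is injective on every block. -/
def Goal {V κ : Type} (G : SimpleGraph V) (b : V → κ) : Prop :=
  ∃ g : V → Fin 4, (∀ u v, G.Adj u v → g u ≠ g v) ∧ ∀ u v, b u = b v → g u = g v → u = v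

/-- No edge inside a block, and no vertex has two neighbours in one block. -/
def Thin {V κ : Type} (G : SimpleGraph V) (b : V → κ) : Prop :=
  (∀ u v, G.Adj u v → b u ≠ b v) ∧ ∀ t u v, G.Adj t u → G.Adj t v → b u = b v → u = v

/-- Every vertex of the component of `x` has two distinct neighbours. -/
def Cyc {V : Type} (G : SimpleGraph V) (x : V) : Prop :=
  ∀ y, G.Reachable x y → ∃ p q, p ≠ q ∧ G.Adj y p ∧ G.Adj y q

/-- `X` is independent, meets every block and meets every cyclic component. -/
structure Good {V κ : Type} (G : SimpleGraph V) (b : V → κ) (X : Finset V) : Prop where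
  indep : ∀ x ∈ X, ∀ y ∈ X, ¬ G.Adj x y
  hit : ∀ i, ∃ x ∈ X, b x = i
  cyc : ∀ x, Cyc G x → ∃ z ∈ X, G.Reachable x z

/-- `X` is good and has the least number of elements among the good sets. -/
def MinGood {V κ : Type} (G : SimpleGraph V) (b : V → κ) (X : Finset V) : Prop :=
  Good G b X ∧ ∀ Y : Finset V, Good G b Y → X.card ≤ Y.card

/-- The number of members of `X` in the block `i`. -/
def mul {V κ : Type} [DecidableEq κ] (b : V → κ) (X : Finset V) (i : κ) : ℕ :=
  (X.filter (fun x => b x = i)).card

/-- The component of `x` is cyclic and `x` is the only member of `X` in it. -/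
def Uniq {V : Type} (G : SimpleGraph V) (X : Finset V) (x : V) : Prop :=
  Cyc G x ∧ ∀ z ∈ X, G.Reachable x z → z = x

/-- A mate: a vertex outside `X` in a protected block. -/
def Mate {V κ : Type} (b : V → κ) (X : Finset V) (P : Finset κ) (a : V) : Prop :=
  b a ∈ P ∧ a ∉ X

/-- `P` is an admissible set of protected blocks for `X`. -/
structure Prot {V κ : Type} [DecidableEq κ] (G : SimpleGraph V) (b : V → κ) (X : Finset V)
    (P : Finset κ) : Prop where
  two : ∀ i ∈ P, mul b X i = 2
  near : ∀ a, Mate b X P a → ∃ x ∈ X, G.Adj a x
  sep : ∀ a a', Mate b X P a → Mate b X P a' → G.Reachable a a' → a = a'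

/-- `v` is a neighbour of `x ∈ X`, and every mate in the component of `x` is equal to `v`. -/
def Allow {V κ : Type} (G : SimpleGraph V) (b : V → κ) (X : Finset V) (P : Finset κ)
    (x v : V) : Prop :=
  x ∈ X ∧ G.Adj x v ∧ ∀ a, Mate b X P a → G.Reachable x a → a = v

/-- The state during an exchange: `B` is the current (hot) block. -/
structure Hot {V κ : Type} [DecidableEq κ] (G : SimpleGraph V) (b : V → κ) (X : Finset V)
    (P : Finset κ) (B : κ) : Prop where
  min : MinGood G b X
  two : ∀ i ∈ P, i ≠ B → mul b X i = 2
  cur1 : B ∉ P → 2 ≤ mul b X B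
  cur2 : B ∈ P → mul b X B = 3
  near : ∀ a, Mate b X P a → ∃ x ∈ X, G.Adj a x
  sep : ∀ a a', Mate b X P a → Mate b X P a' → G.Reachable a a' → a = a'

/-- A vertex outside `X` and outside the protected blocks. -/
def Star {V κ : Type} (b : V → κ) (X : Finset V) (P : Finset κ) (v : V) : Prop :=
  v ∉ X ∧ b v ∉ P

/-- `Att n y`: either `n = y`, or `n` is a mate and `y` is a neighbour of the other mate in the
block of `n`. -/
def Att {V κ : Type} (G : SimpleGraph V) (b : V → κ) (X : Finset V) (P : Finset κ)
    (n y : V) : Prop :=
  n = y ∨ (Mate b X P n ∧ ∃ a, Mate b X P a ∧ a ≠ n ∧ b a = b n ∧ G.Adj a y)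

/-- The auxiliary graph on the vertices outside `X` and outside the protected blocks: the edges of
`G`, and for every protected block with mates `a, a'` the edge between the outer neighbour of `a`
and the outer neighbour of `a'`. -/
def HS {V κ : Type} (G : SimpleGraph V) (b : V → κ) (X : Finset V) (P : Finset κ) :
    SimpleGraph V where
  Adj u v := u ≠ v ∧ Star b X P u ∧ Star b X P v ∧ ∃ n, G.Adj u n ∧ Att G b X P n v
  symm := ⟨by
    rintro u v ⟨h1, h2, h3, n, h4, h5⟩
    refine ⟨h1.symm, h3, h2, ?_⟩
    rcases h5 with h5 | ⟨h5, a, h6, h7, h8, h9⟩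
    · subst h5
      exact ⟨u, h4.symm, Or.inl rfl⟩
    · exact ⟨a, h9.symm, Or.inr ⟨h6, n, h5, h7.symm, h8.symm, h4.symm⟩⟩⟩
  loopless := ⟨fun u h => h.1 rfl⟩

/-! ## Statements -/

/-- **IT** (Haxell).  An independent transversal exists.
PROOF.  Use `Pool.Agent.Helper88.SCN.constel` (file `Pool/Agent/Helper88/SCN/Constel.lean`) with
`adj x y := G.Adj x y` (`Sys` holds by the first part of `Thin`), `L = univ`.  If there is no
independent transversal we get `I ≠ ∅`, `X`, `Y` with `|Y| + 1 = |I|`, `|X| + 1 ≤ |I|` such that
every vertex of a block in `I` has a neighbour in `X ∪ Y`.  The number of the vertices in the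
blocks of `I` is `4 |I|` by `Four`, and the number of the vertices with a neighbour in `X ∪ Y` is at
most `2 |X ∪ Y| ≤ 2 (2 |I| - 2) < 4 |I|` by `Deg2`: contradiction. -/
def StIT : Prop :=
  ∀ (V κ : Type) [Fintype V] [DecidableEq V] [Fintype κ] [DecidableEq κ] (G : SimpleGraph V)
    (b : V → κ), Deg2 G → Four b → Thin G b →
    ∃ T : κ → V, (∀ i, b (T i) = i) ∧ ∀ i j, ¬ G.Adj (T i) (T j)

/-- **EX**.  Given an independent transversal, there is a good set with the least number of
elements.
PROOF.  Among the independent sets `X` (finsets with no two adjacent members) containing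
`univ.image T` take one with the greatest number of elements.  It is maximal, so every vertex
is in `X` or has a neighbour in `X` (`insert v X` is independent otherwise; no loops); so it meets
every component, in particular every cyclic one, and it meets every block since it contains the
transversal.  So good sets exist; take one with the least cardinality. -/
def StEX : Prop :=
  ∀ (V κ : Type) [Fintype V] [DecidableEq V] [Fintype κ] [DecidableEq κ] (G : SimpleGraph V)
    (b : V → κ) (T : κ → V), (∀ i, b (T i) = i) → (∀ i j, ¬ G.Adj (T i) (T j)) →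
    ∃ X : Finset V, MinGood G b X

/-- **XCH**.  Exchange.  Let `X` be a good set of least cardinality, `x ∈ X` and let the block of
`x` contain at least two members of `X`.  Then the component of `x` is cyclic and contains no other
member of `X`, and `x` can be replaced by any vertex `y` of its component.
PROOF.  `X.erase x` is independent and meets every block.  By minimality it is not good, so there
is `w` with `Cyc G w` such that no member of `X.erase x` is reachable from `w`.  As `X` is good, some
`z ∈ X` is reachable from `w`; so `z = x`.  So the component of `x` is the one of `w`: it is cyclic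
(`Cyc` only depends on the component) and the only member of `X` in it is `x`.  Let `y` be reachable
from `x`, `X' = insert y (X.erase x)`.  If `y = x` then `X' = X`.  Otherwise `y ∉ X`, so the
cardinality is the same.  Independent: a neighbour of `y` in `X.erase x` would be reachable from
`x`, so it would be `x`.  It meets every block (the block of `x` has another member of `X`).  It meets
every cyclic component: if `z ∈ X` is reachable from `w` and `z = x` take `y`, otherwise take `z`.
So `X'` is good, and it is of least cardinality as `X` is. -/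
def StXCH : Prop :=
  ∀ (V κ : Type) [Fintype V] [DecidableEq V] [Fintype κ] [DecidableEq κ] (G : SimpleGraph V)
    (b : V → κ) (X : Finset V), MinGood G b X → ∀ x ∈ X, 2 ≤ mul b X (b x) →
    Uniq G X x ∧ ∀ y, G.Reachable x y → MinGood G b (insert y (X.erase x))

/-- **UNI**.  Uniqueness along sequences.  `B 0, …, B k` are blocks such that `B 0` contains at
least two members of `X` and for every `i < k` some `x ∈ X ∩ B i` has a vertex of `B (i+1)` in its
component.  Then for all `x ∈ X ∩ B k` the component of `x` is cyclic and contains no other member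
of `X`.
PROOF.  Strong induction on `k`, for all `X` and `B`.  `k = 0`: `hXCH`.  Let `k ≥ 1`.  If
`B i = B 0` for some `1 ≤ i ≤ k`, apply the induction hypothesis to `k - i` and the sequence
`j ↦ B (i + j)`.  So assume `B i ≠ B 0` for `1 ≤ i ≤ k`.  Let `x₁ ∈ X`, `b x₁ = B 0` and
`y` reachable from `x₁`, `b y = B 1`; so `y ≠ x₁` and `y ∉ X` (by the first part of `hXCH`, `x₁` is
the only member of `X` in its component).  By `hXCH`, `X' = insert y (X.erase x₁)` is a good set of
least cardinality.  The block `B 1` contains `y ∈ X'` and a member of `X` (`X` is good), which is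
not `x₁` as `B 1 ≠ B 0`; so `2 ≤ mul b X' (B 1)`.  The sequence `j ↦ B (1 + j)`, of length `k - 1`,
satisfies the hypothesis for `X'`: the members `x ∈ X` used in the blocks `B i`, `i ≥ 1`, are not
`x₁` (block), so they are in `X'`.  By the induction hypothesis, for `x ∈ X ∩ B k` (`x ≠ x₁`, so
`x ∈ X'`) we have `Uniq G X' x`.  If `z ∈ X` is reachable from `x` and `z ≠ x₁` then `z ∈ X'`,
so `z = x`.  If `x₁` were reachable from `x`, then so would be `y ∈ X'`, hence `y = x ∈ X`, which is
false. -/
def StUNI : Prop :=
  StXCH →
  ∀ (V κ : Type) [Fintype V] [DecidableEq V] [Fintype κ] [DecidableEq κ] (G : SimpleGraph V)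
    (b : V → κ) (k : ℕ) (X : Finset V), MinGood G b X → ∀ B : ℕ → κ, 2 ≤ mul b X (B 0) →
    (∀ i < k, ∃ x ∈ X, b x = B i ∧ ∃ y, G.Reachable x y ∧ b y = B (i + 1)) →
    ∀ x ∈ X, b x = B k → Uniq G X x

/-- **CNT**.  Counting.  `S` is a set of blocks closed under allowed steps, it contains a bad
block `i₀` (not protected, at least two members of `X`), and every member of `X` in a block of `S`
is the only member of `X` in its component, which is cyclic.  Then there is an unprotected block
`j ∈ S` with exactly one member of `X`, all whose other vertices can be reached by an allowed step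
from a member of `X` in a block of `S`.
PROOF.  Suppose not.  Let `XS` be the set of the `x ∈ X` with `b x ∈ S`, `N x = {v | Allow x v}`
and `A x = {a | Mate a, x reachable from a}`.  For `x ∈ XS`: (1) `|A x| ≤ 1` by `sep`.
(2) `3 ≤ 1 + |N x| + |A x|`: `x` has two distinct neighbours `p ≠ q` (`Cyc`).  If `A x` is empty
both are in `N x`.  If `a ∈ A x`, then `a` has a neighbour in `X` (`near`), it is in the component
of `x`, so it is `x`; so `a ∈ N x` (every mate in the component is `a` by `sep`).
(3) The sets `{x} ∪ N x` (`x ∈ XS`) are pairwise disjoint (they are in different components, because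
`x` is the only member of `X` in its component), `x ∉ N x`, and they are contained in
`W = {z | b z ∈ S, z ∈ X or Allow x z for some x ∈ XS}`, because `S` is closed.  (4) The sets
`A x` (`x ∈ XS`) are pairwise disjoint and contained in the set of the mates in the blocks of
`S` (by (2), a member of `A x` is in `N x`, so its block is in `S`).
Summing (2) over `XS`: `3 |XS| ≤ |W| + |mates in blocks of S|`.
Let `g, e, n` be the numbers of the blocks of `S` which are protected; not protected with
`mul ≥ 2` (bad); not protected with `mul = 1`.  `mul ≥ 1` for every block by `Good.hit`, so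
`|S| = g + e + n`.  `|XS| = ∑_{i ∈ S} mul i ≥ 2 g + 2 e + n`; the number of the mates in the blocks
of `S` is `2 g` (`4 - 2` in each protected block); `|W| ≤ 4 g + 4 e + 3 n`, because in every block
of the third kind some vertex is not in `W` (this is the assumption of the indirect proof).
So `6 g + 6 e + 3 n ≤ 4 g + 4 e + 3 n + 2 g`, so `e = 0`, but `i₀` is bad. -/
def StCNT : Prop :=
  ∀ (V κ : Type) [Fintype V] [DecidableEq V] [Fintype κ] [DecidableEq κ] (G : SimpleGraph V)
    (b : V → κ) (X : Finset V) (P S : Finset κ) (i₀ : κ), Four b → Good G b X → Prot G b X P →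
    i₀ ∈ S → i₀ ∉ P → 2 ≤ mul b X i₀ →
    (∀ x ∈ X, b x ∈ S → ∀ v, Allow G b X P x v → b v ∈ S) →
    (∀ x ∈ X, b x ∈ S → Uniq G X x) →
    ∃ j ∈ S, j ∉ P ∧ mul b X j = 1 ∧
      ∀ z, b z = j → z ∉ X → ∃ x ∈ X, b x ∈ S ∧ Allow G b X P x z

/-- **PTH**.  Shortest paths in a relation.
PROOF.  Take the least `s` for which there is a sequence `B` with `B 0 = i`, `B s = j`,
`r (B k) (B (k+1))` for `k < s` (it exists by induction on `ReflTransGen`).  `s ≥ 1` as `i ≠ j`.
If `B k = B l` with `k < l ≤ s`, cut out the part between (`B' m = B m` for `m ≤ k`,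
`B' m = B (m + (l - k))` for `m > k`): shorter.  If `r (B k) j` with `k + 1 < s`, then
`B 0, …, B k, j` is shorter. -/
def StPTH : Prop :=
  ∀ (κ : Type) (r : κ → κ → Prop) (i j : κ), i ≠ j → Relation.ReflTransGen r i j →
    ∃ (s : ℕ) (B : ℕ → κ), 1 ≤ s ∧ B 0 = i ∧ B s = j ∧ (∀ k < s, r (B k) (B (k + 1))) ∧
      (∀ k ≤ s, ∀ l ≤ s, B k = B l → k = l) ∧ ∀ k, k + 1 < s → ¬ r (B k) j

/-- **STP**.  One exchange from the hot block `B = b x` along the allowed pair `x, v` into another
block.
PROOF.  `X' = insert v (X.erase x)`.  `2 ≤ mul b X (b x)` by `cur1`, `cur2`, so `hXCH` gives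
`Uniq G X x` and `MinGood G b X'`.  `v ∉ X` (adjacent to `x ∈ X`, `X` independent).  Counts:
`mul` drops by one at `b x` (`x ≠ v`), increases by one at `b v`, and does not change elsewhere.
If `b x ∈ P` it drops from 3 to 2; if `b v ∈ P` then `mul b X (b v) = 2` (as `b v ≠ b x`), so now 3; if
`b v ∉ P` it is at least `1 + 1` (`Good.hit`).
Mates for `X'`: `x` if `b x ∈ P`, and the mates `z ≠ v` of `X`.  `near`: `x` is adjacent to
`v ∈ X'`; an old mate `z ≠ v` has a neighbour `w ∈ X`; if `w = x` then `z` is a mate in the component
of `x`, so `z = v` by `Allow`, contradiction; so `w ∈ X'`.  `sep`: two old ones: old `sep`; `x` and an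
old mate `z ≠ v` in its component: `z = v` by `Allow`, contradiction.
Second part, for `y ∈ X`, `y ≠ x` with `Uniq G X y`: `y ∈ X'`.  `x` and `v` are not reachable
from `y` (`x ∈ X`, `x ≠ y`, and `v` is adjacent to `x`).  So `Uniq G X' y`, and the mates in the
component of `y` are the same for `X` and for `X'`, so `Allow` is the same. -/
def StSTP : Prop :=
  StXCH →
  ∀ (V κ : Type) [Fintype V] [DecidableEq V] [Fintype κ] [DecidableEq κ] (G : SimpleGraph V)
    (b : V → κ) (X : Finset V) (P : Finset κ) (x v : V), Hot G b X P (b x) →
    Allow G b X P x v → b v ≠ b x →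
    Hot G b (insert v (X.erase x)) P (b v) ∧
    mul b (insert v (X.erase x)) (b v) = mul b X (b v) + 1 ∧
    (∀ i, i ≠ b x → i ≠ b v → mul b (insert v (X.erase x)) i = mul b X i) ∧
    ∀ y ∈ X, y ≠ x → Uniq G X y → y ∈ insert v (X.erase x) ∧ Uniq G (insert v (X.erase x)) y ∧
      ∀ z, Allow G b X P y z ↔ Allow G b (insert v (X.erase x)) P y z

/-- **PSH**.  Exchanges along a path `x 0, v 0, x 1, v 1, …, x (s-1), v (s-1)` which ends in the
block `j`; afterwards `j` can be protected.
PROOF.  Induction on `s`, for all `X, x, v`.  Let `X' = insert (v 0) (X.erase (x 0))`;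
`b (v 0) ≠ b (x 0)` (it is `b (x 1)` or `j`).  Use `hSTP`.
Case `s = 1`: `b (v 0) = j`, `mul b X' j = 2`, `Hot G b X' P j`.  Claim: `X'` and `insert j P`
work.  Let `z` be in the block `j`, `z ∉ X'`; so `z ∉ X` (`x 0` is not in `j`), `z ≠ v 0`; there is
`y ∈ X` with `Allow G b X P y z`, `Uniq G X y`.  `y ≠ x 0`: otherwise `z` and `v 0` are two neighbours
of `x 0` in one block, so equal by `Thin`.  So `y ∈ X'`, `Uniq G X' y`, `Allow G b X' P y z`.
`two`: for `i ∈ P`, `i ≠ j`, by `Hot.two`.  `near`: `Hot.near` or `y`.  `sep`: two members of `P`-blocks: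
`Hot.sep`; `z` in block `j` and a mate `a` with `b a ∈ P` in its component: `a` is reachable from `y`,
so `a = z` by `Allow`, but `b z = j ∉ P`; two vertices `z, z'` of the block `j` outside `X'` in one
component, with `y, y'`: `y = y'` by `Uniq`, so `z = z'` by `Thin` (both are neighbours of `y`).
Case `s ≥ 2`: apply the induction hypothesis to `s - 1`, `X'`, `i ↦ x (i+1)`, `i ↦ v (i+1)`; the
hypotheses follow from `hSTP`: `x i ≠ x 0` for `i ≥ 1` (different blocks), so `Uniq` and `Allow` are
kept in both directions; `mul b X' j = mul b X j` because `j ≠ b (x 0)` and `j ≠ b (v 0) = b (x 1)`;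
for `z` in the block `j`, `z ∉ X'`: `z ∉ X` (`z ≠ x 0` by the block), it has
`y ∈ X` with `Allow G b X P y z`, and `y ≠ x 0` by the hypothesis on shortcuts (`0 + 1 < s`). -/
def StPSH : Prop :=
  StXCH → StSTP →
  ∀ (V κ : Type) [Fintype V] [DecidableEq V] [Fintype κ] [DecidableEq κ] (G : SimpleGraph V)
    (b : V → κ) (P : Finset κ) (j : κ), Thin G b → j ∉ P →
    ∀ (s : ℕ) (X : Finset V) (x v : ℕ → V), 1 ≤ s → Hot G b X P (b (x 0)) →
    (∀ i < s, Allow G b X P (x i) (v i) ∧ Uniq G X (x i)) →
    (∀ i, i + 1 < s → b (v i) = b (x (i + 1))) → b (v (s - 1)) = j →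
    (∀ i < s, ∀ k < s, b (x i) = b (x k) → i = k) → (∀ i < s, b (x i) ≠ j) →
    (∀ i, i + 1 < s → ∀ z, b z = j → ¬ Allow G b X P (x i) z) →
    mul b X j = 1 →
    (∀ z, b z = j → z ∉ X → ∃ y ∈ X, Allow G b X P y z ∧ Uniq G X y) →
    ∃ X' : Finset V, MinGood G b X' ∧ Prot G b X' (insert j P)

/-- **MAX**.  There are a good set `X` of least cardinality and an admissible set `P` of protected
blocks such that every unprotected block contains exactly one member of `X`.
PROOF.  `P = ∅` is admissible for the given `X`.  Take `(X, P)` with `X` a good set of least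
cardinality, `P` admissible and `|P|` as large as possible (`|P| ≤ |κ|`).  Suppose that `i₀ ∉ P` and
`mul b X i₀ ≠ 1`; by `Good.hit`, `2 ≤ mul b X i₀`.  Let `r i j := ∃ x v, Allow x v ∧ b x = i ∧ b v = j`
and `S` the set of the blocks `j` with `ReflTransGen r i₀ j`.  `S` is closed.  Every `x ∈ X` with
`b x ∈ S` satisfies `Uniq G X x` by `hUNI` (turn the chain into a sequence; `Allow x v` gives
`Reachable x v`).  `hCNT` gives `j ∈ S`; `j ≠ i₀` as `mul b X j = 1`.  `hPTH` gives `s` and a
sequence `B`; choose `x k, v k` for `k < s` with `Allow (x k) (v k)`, `b (x k) = B k`,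
`b (v k) = B (k+1)`.  `Hot G b X P i₀` holds (`i₀ ∉ P`; from `Prot`).  `hPSH` gives `X'` with `insert j P` admissible:
a contradiction to the choice of `P`. -/
def StMAX : Prop :=
  StUNI → StCNT → StPTH → StPSH → StXCH → StSTP →
  ∀ (V κ : Type) [Fintype V] [DecidableEq V] [Fintype κ] [DecidableEq κ] (G : SimpleGraph V)
    (b : V → κ) (X₀ : Finset V), Four b → Thin G b → MinGood G b X₀ →
    ∃ (X : Finset V) (P : Finset κ), MinGood G b X ∧ Prot G b X P ∧
      ∀ i, i ∉ P → mul b X i = 1

/-- **ATT**.  In the auxiliary graph the attaching neighbour `n` determines `y`.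
PROOF.  A mate is not `Star` (its block is in `P`).  If `n` is not a mate then `y = n = y'`.  If `n` is
a mate then `n ≠ y`, `n ≠ y'`, so there are mates `a ≠ n`, `a' ≠ n` in the block of `n` with
`G.Adj a y`, `G.Adj a' y'`.  The block of `n` has exactly two vertices outside `X` (`Four`,
`Prot.two`: `4 - 2`), so `a = a'`.  `a` has a neighbour in `X` (`near`), which is different from `y` and
`y'` (`Star`), so by `Deg2` `y = y'`. -/
def StATT : Prop :=
  ∀ (V κ : Type) [Fintype V] [DecidableEq V] [Fintype κ] [DecidableEq κ] (G : SimpleGraph V)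
    (b : V → κ) (X : Finset V) (P : Finset κ), Deg2 G → Four b → Prot G b X P →
    ∀ n y y', Star b X P y → Star b X P y' → Att G b X P n y → Att G b X P n y' → y = y'

/-- **HDG**.  The auxiliary graph has at most two neighbours at every vertex.
PROOF.  For a neighbour `y` of `x` in `HS` choose `n` with `G.Adj x n` and `Att n y`; by `hATT` `n`
determines `y`.  As `G` has at most two neighbours `n` of `x`, two of three given neighbours of `x` in
`HS` have the same `n`, so they are equal. -/
def StHDG : Prop :=
  StATT →
  ∀ (V κ : Type) [Fintype V] [DecidableEq V] [Fintype κ] [DecidableEq κ] (G : SimpleGraph V)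
    (b : V → κ) (X : Finset V) (P : Finset κ), Deg2 G → Four b → Prot G b X P →
    Deg2 (HS G b X P)

/-- **LEF**.  Every nonempty set of vertices has a member with at most one neighbour in the set,
in the auxiliary graph.
PROOF.  Suppose that `Θ ≠ ∅` and every `x ∈ Θ` has two distinct neighbours in `Θ` in `HS`.  Then
for every `x ∈ Θ`: `Star x`, and `x` has exactly two neighbours `n₁ ≠ n₂` in `G` and each of them is
in `Θ` or is a mate (the two neighbours `y₁ ≠ y₂` in `HS` come from `n₁, n₂` with `Att nᵢ yᵢ`, and
`n₁ ≠ n₂` by `hATT`; use `Deg2` for exactly two).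
Let `x₀ ∈ Θ` and let `A` be the set of the vertices of `Θ` in the component of `x₀`.  By `sep` the
component contains at most one mate.  If some `x ∈ A` is adjacent to a mate `a`: `a` has a neighbour
in `X` (`near`), which is not in `A`, so by `Deg2` at most one vertex of `A` is adjacent to `a`; so
exactly one vertex `x` of `A` has exactly one neighbour in `A` (the other one is `a ∉ A`), and all other vertices of `A` have exactly
two neighbours in `A`.  This is impossible because the sum of the degrees of the graph induced on
`A` is even (e.g. `SimpleGraph.even_card_odd_degree_vertices` or `sum_degrees_eq_twice_card_edges`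
for the graph with adjacency `u ∈ A ∧ v ∈ A ∧ G.Adj u v`).  So no vertex of `A` is adjacent to a mate,
and `A` is closed under adjacency: `A` is the whole component of `x₀`.  Every vertex of it has two
distinct neighbours: `Cyc G x₀`, so by `Good.cyc` some `z ∈ X` is reachable from `x₀`, so `z ∈ A ⊆ Θ`,
contradiction with `Star z`. -/
def StLEF : Prop :=
  StATT →
  ∀ (V κ : Type) [Fintype V] [DecidableEq V] [Fintype κ] [DecidableEq κ] (G : SimpleGraph V)
    (b : V → κ) (X : Finset V) (P : Finset κ), Deg2 G → Four b → Good G b X → Prot G b X P →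
    ∀ Θ : Finset V, Θ.Nonempty → ∃ x ∈ Θ, ∀ y ∈ Θ, ∀ z ∈ Θ,
      (HS G b X P).Adj x y → (HS G b X P).Adj x z → y = z

/-- **FSG** (Fleischner-Stiebitz for linear forests, general form).  `H` has at most two neighbours
at every vertex and every nonempty set has a member with at most one neighbour in the set; `S` is a
set of vertices and every block in `Q` has exactly 3 vertices in `S`.  Then `S` has a proper
3-colouring which is injective on the three vertices of every block of `Q`.
PROOF.  Copy of the theorem `SC.order` (Pool/Agent/Helper95/SC/Order.lean) with the hypothesis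
`IsAcyclic` replaced by the hypothesis on `Θ` (`IsAcyclic` is only used to apply `leaf`): there is a
list `l` without repetitions with the members of `S` such that adjacent members of `S` are
consecutive.  For every block of `Q` list its three vertices in `S` as a triple and apply
`SC.path_exists` (Pool/Agent/Helper95/SC/Parity3.lean) to `l` and to the list of these triples. -/
def StFSG : Prop :=
  ∀ (V κ : Type) [Fintype V] [DecidableEq V] [Fintype κ] [DecidableEq κ] (H : SimpleGraph V)
    (b : V → κ) (S : Finset V) (Q : Finset κ), Deg2 H →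
    (∀ Θ : Finset V, Θ.Nonempty → ∃ x ∈ Θ, ∀ y ∈ Θ, ∀ z ∈ Θ, H.Adj x y → H.Adj x z → y = z) →
    (∀ i ∈ Q, (S.filter (fun v => b v = i)).card = 3) →
    ∃ f : V → Fin 3, (∀ u ∈ S, ∀ v ∈ S, H.Adj u v → f u ≠ f v) ∧
      ∀ u ∈ S, ∀ v ∈ S, b u = b v → b u ∈ Q → f u = f v → u = v

/-- The three properties of the 3-colouring `f` of the vertices outside `X` and outside the
protected blocks. -/
structure Col {V κ : Type} (G : SimpleGraph V) (b : V → κ) (X : Finset V) (P : Finset κ)
    (f : V → Fin 3) : Prop where
  proper : ∀ u v, Star b X P u → Star b X P v → G.Adj u v → f u ≠ f v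
  inj : ∀ u v, Star b X P u → Star b X P v → b u = b v → f u = f v → u = v
  outer : ∀ a a' u v, Mate b X P a → Mate b X P a' → a ≠ a' → b a = b a' → Star b X P u →
    Star b X P v → G.Adj a u → G.Adj a' v → f u ≠ f v

/-- **FSC**.  The colouring `f` exists.
PROOF.  `hFSG` for `H = HS G b X P` (`hHDG`, `hLEF`), `S` = the set of the `Star` vertices, `Q` = the
unprotected blocks (`4 - 1 = 3` vertices in `S`).  `proper`: adjacent `Star` vertices are adjacent in
`HS` (`n = v`).  `inj`: the block is unprotected.  `outer`: `u ≠ v`, as otherwise `u` has two neighbours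
in one block (`Thin`); so `u, v` are adjacent in `HS` (with `n = a`; the other mate is `a'`). -/
def StFSC : Prop :=
  StATT → StHDG → StLEF → StFSG →
  ∀ (V κ : Type) [Fintype V] [DecidableEq V] [Fintype κ] [DecidableEq κ] (G : SimpleGraph V)
    (b : V → κ) (X : Finset V) (P : Finset κ), Deg2 G → Four b → Thin G b → Good G b X →
    Prot G b X P → (∀ i, i ∉ P → mul b X i = 1) →
    ∃ f : V → Fin 3, Col G b X P f

/-- **MCO**.  Colours 1, 2 for the mates.
PROOF.  For each protected block: it has exactly two mates `a ≠ a'` (`Four`, `Prot.two`).  Each mate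
has a neighbour in `X` (`near`), so by `Deg2` at most one `Star` neighbour.  Try `h a = 1, h a' = 2`: it is bad only if
`a` has a `Star` neighbour of colour 1 or `a'` one of colour 2.  Try `h a = 2, h a' = 1`: bad only if
`a` has a `Star` neighbour of colour 2 or `a'` one of colour 1.  If both are bad then (as `a`
and `a'` have at most one `Star` neighbour each) `a` and `a'` have `Star` neighbours with
the same colour, contradiction with `Col.outer`.  Choose for each block of `P` a good assignment
and combine. -/
def StMCO : Prop :=
  ∀ (V κ : Type) [Fintype V] [DecidableEq V] [Fintype κ] [DecidableEq κ] (G : SimpleGraph V)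
    (b : V → κ) (X : Finset V) (P : Finset κ) (f : V → Fin 3), Deg2 G → Four b →
    Prot G b X P → Col G b X P f →
    ∃ h : V → Fin 3, (∀ a, Mate b X P a → h a ≠ 0) ∧
      (∀ a a', Mate b X P a → Mate b X P a' → a ≠ a' → b a = b a' → h a ≠ h a') ∧
      ∀ a v, Mate b X P a → Star b X P v → G.Adj a v → f v ≠ h a

/-- **EXT**.  The 4-colouring.  `hU` is the uniqueness for the members of `X` in blocks reachable
from blocks with at least two members of `X`.
PROOF.  Choose for every `i ∈ P` a member `c i` of `X` in the block `i` (`mul = 2`).  Let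
`Act : V → Prop` be the inductive predicate: `Act (c i)` for `i ∈ P`; and if `Act x`, `G.Adj x w`,
`Star w`, `f w = 0`, `y ∈ X`, `b y = b w`, then `Act y`.  (i) `Act x` implies `x ∈ X` and `Uniq G X x`:
by induction there are `k` and a sequence of blocks as in `hU` ending in the block of `x` (start:
`k = 0`, `mul = 2`; step: append the block of `w`).  Define `g : V → Fin 4`: for `x ∈ X`:
`g x = 0` if `Act x`, otherwise `3`; for a mate `a`: `g a = h a` (1 or 2); for a `Star` vertex `w`
with `f w ≠ 0`: `g w = f w` (1 or 2); for a `Star` vertex `w` with `f w = 0`: `g w = 3` if `w` has a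
neighbour `x` with `Act x`, otherwise `0`.
PROPER.  Adjacent vertices, both with colours in `{1, 2}`: two `Star` vertices: `Col.proper`; a mate and
a `Star` vertex: `h`; two mates are not adjacent by `sep`.  Both with colours in `{0, 3}`: two members
of `X` are not adjacent; two `Star` vertices with `f = 0` are not adjacent (`Col.proper`); `x ∈ X` and
a `Star` vertex `w` with `f w = 0`: if `Act x` then `g x = 0`, `g w = 3`.  If not `Act x`, then
`g x = 3`; if `g w = 3` there would be `x'` with `Act x'` adjacent to `w`; then `x` is reachable from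
`x'`, and `Uniq G X x'` gives `x = x'`, contradiction; so `g w = 0`.
INJECTIVE on blocks.  Unprotected block: exactly one member `y` of `X` (`mul = 1`), three `Star`
vertices, on which `f` is injective.  If `f w = 0` for the `Star` vertex `w` of the block, then
`g y = 0` iff `g w = 3`: if `Act x`, `G.Adj x w`, then `Act y` by the second rule; if `Act y`, it was
obtained by the second rule (`c i` is in a protected block) from some `x` and `w'` with
`b w' = b y`, `f w' = 0`, so `w' = w`.  Protected block `i`: the mates have different colours in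
`{1, 2}`; the members of `X` in it are `c i` and another one `x'`; `Act (c i)`; `Act x'` is false (not
of the form `c i'`, and the second rule does not apply, because the block of a `Star` vertex is
unprotected); there are no `Star` vertices. -/
def StEXT : Prop :=
  ∀ (V κ : Type) [Fintype V] [DecidableEq V] [Fintype κ] [DecidableEq κ] (G : SimpleGraph V)
    (b : V → κ) (X : Finset V) (P : Finset κ) (f h : V → Fin 3), Deg2 G → Four b → Thin G b →
    Good G b X → Prot G b X P → (∀ i, i ∉ P → mul b X i = 1) → Col G b X P f →
    (∀ a, Mate b X P a → h a ≠ 0) →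
    (∀ a a', Mate b X P a → Mate b X P a' → a ≠ a' → b a = b a' → h a ≠ h a') →
    (∀ a v, Mate b X P a → Star b X P v → G.Adj a v → f v ≠ h a) →
    (∀ (k : ℕ) (B : ℕ → κ), 2 ≤ mul b X (B 0) →
      (∀ i < k, ∃ x ∈ X, b x = B i ∧ ∃ y, G.Reachable x y ∧ b y = B (i + 1)) →
      ∀ x ∈ X, b x = B k → Uniq G X x) →
    Goal G b

/-- The hypothesis of the reductions: every graph `G'` which has, outside the block `B`, at most
two neighbours at every vertex, can be coloured outside `B`. -/
def Rest {V κ : Type} (b : V → κ) (B : κ) : Prop :=
  ∀ G' : SimpleGraph V,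
    (∀ x p q r, b x ≠ B → b p ≠ B → b q ≠ B → b r ≠ B → G'.Adj x p → G'.Adj x q → G'.Adj x r →
      p = q ∨ p = r ∨ q = r) →
    ∃ g : V → Fin 4, (∀ x y, b x ≠ B → b y ≠ B → G'.Adj x y → g x ≠ g y) ∧
      ∀ x y, b x ≠ B → b x = b y → g x = g y → x = y

/-- **RD1**.  First reduction: `t` and `q` are two common neighbours of `v, c` in one block.
PROOF.  Let `B = b v` and let `p, d` be the two other vertices of this block (`Four`).  `t` and
`q` have no neighbours other than `v, c` (`Deg2`), `t, q` are not in `B`.  No edges inside `B`.  Let `G'.Adj u w` iff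
`u ≠ w` and (`G.Adj u w` or (`u = t` and `G.Adj p w`) or (`w = t` and `G.Adj p u`) or (`u = q` and
`G.Adj d w`) or (`w = q` and `G.Adj d u`)).  Degrees outside `B`: the neighbours of `t` in `G'`
outside `B` are neighbours of `p`, those of `q` are neighbours of `d`; for `x ≠ t, q` map a neighbour
`w` of `x` in `G'` to `n = w`, and `t` to `p`, `q` to `d`: this is an injective map to the
neighbours of `x` in `G`.  So `hRest` gives `g`.  Let `β = g t`, `α = g q`.  All neighbours `w` of `p`
have `g w ≠ β` (`t` is not adjacent to `p`, so `w ≠ t`), all neighbours `w` of `d` have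
`g w ≠ α`.  If `α ≠ β`, colour `p` with `β`, `d` with `α`, and `v, c` with the two other colours.
If `α = β`, colour `d` with `α`, `p` with a colour which is not `α` and not the colour of
one of the at most two neighbours of `p` (3 colours, 2 neighbours), and `v, c` with the two remaining
colours.  `v` and `c` have only the neighbours `t, q` (`Deg2`), with colours `β, α`, so this is proper. -/
def StRD1 : Prop :=
  ∀ (V κ : Type) [Fintype V] [DecidableEq V] [Fintype κ] [DecidableEq κ] (G : SimpleGraph V)
    (b : V → κ) (t q v c : V), Deg2 G → Four b → (∀ u w, G.Adj u w → b u ≠ b w) →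
    G.Adj t v → G.Adj t c → G.Adj q v → G.Adj q c → t ≠ q → v ≠ c → b v = b c →
    Rest b (b v) → Goal G b

/-- **RD2**.  Second reduction: `t` is the only common neighbour of `v, c` in one block.
PROOF.  Let `B = b v` and let `p, d` be the two other vertices of this block (`Four`).  `t` has no
neighbours other than `v, c`.  Let `G'.Adj u w` iff `u ≠ w` and (`G.Adj u w` or (`u = t` and
`G.Adj p w`) or (`w = t` and `G.Adj p u`) or (`u ≠ t`, `w ≠ t`, and (`G.Adj v u`, `G.Adj c w`) or
(`G.Adj v w`, `G.Adj c u`))).  Degrees outside `B`: for `x = t` the neighbours in `G'` are neighbours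
of `p`.  For `x ≠ t` assign to a neighbour `w` of `x` in `G'` a neighbour `n` of `x` in `G`:
`n = w`, or `n = p` (if `w = t`), or `n = v` (if `G.Adj v x` and `w` is a neighbour of `c` other
than `t`), or `n = c` (if `G.Adj c x` and `w` is a neighbour of `v` other than `t`).  `n` determines
`w` (`v` and `c` have only one neighbour other than `t`).  So `hRest` gives `g`.  Let `β = g t`.  The
neighbours of `p` have colours `≠ β`.  Colour `p` with `β`, `d` with a colour `≠ β` which is not a
colour of the at most two neighbours of `d` (`t` is not a neighbour of `d`), and `v, c` with the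
two remaining colours `γ, δ` (both are `≠ β`), such that `v` gets a colour different from that of its
neighbour `x ≠ t` (if it exists) and `c` one different from that of its neighbour `y ≠ t` (if it
exists): possible because, if both exist, `x ≠ y` (hypothesis), `x` and `y` are adjacent in `G'`, so
`g x ≠ g y`. -/
def StRD2 : Prop :=
  ∀ (V κ : Type) [Fintype V] [DecidableEq V] [Fintype κ] [DecidableEq κ] (G : SimpleGraph V)
    (b : V → κ) (t v c : V), Deg2 G → Four b → (∀ u w, G.Adj u w → b u ≠ b w) →
    G.Adj t v → G.Adj t c → (∀ q, G.Adj q v → G.Adj q c → q = t) → v ≠ c → b v = b c →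
    Rest b (b v) → Goal G b

/-- **SUB**.  Induction hypothesis for instances with fewer blocks.
PROOF.  Apply the hypothesis to `V' = {v // b v ≠ B}`, `κ' = {i // i ≠ B}`, the graph
`G'.comap Subtype.val`, and the induced block function.  `Four`: the block of `i ≠ B` in `V'` is in
bijection with the block of `i` in `V`.  `card κ' < card κ` (`B` is missing).  Extend the colouring
by `0` to the block `B`. -/
def StSUB : Prop :=
  ∀ (V κ : Type) [Fintype V] [DecidableEq V] [Fintype κ] [DecidableEq κ] (b : V → κ) (B : κ),
    Four b →
    (∀ (V' κ' : Type) [Fintype V'] [DecidableEq V'] [Fintype κ'] [DecidableEq κ']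
      (G' : SimpleGraph V') (b' : V' → κ'), Fintype.card κ' < Fintype.card κ → Deg2 G' →
      Four b' → Goal G' b') →
    Rest b B

/-- **CF4**.  The 4-cycle is not strongly `k`-colourable for `k = 1, 2, 3`.
PROOF.  `k = 1`: adjacent vertices get the same colour.  `k = 2`: no new vertex (`r = 0`); blocks
`{0, 2}`, `{1, 3}`: a proper 2-colouring of the cycle gives `0, 2` the same colour, but the block
needs both colours.  `k = 3`: two new vertices `x, y`; blocks `{0, 2, x}`, `{1, 3, y}`: `0, 2` have
different colours, `1, 3` have different colours, and each of `0, 2` is adjacent to each of `1, 3`: four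
colours are needed.  Use `SC.strongOn_fun` as in `SC.k33_not` (file
`Pool/Agent/Helper95/SC/K33.lean`), which is the same argument for `K₃,₃`. -/
def StCF4 : Prop :=
  ∀ k : ℕ, 0 < k → k < 4 → ¬ SC.StronglyColourable (SimpleGraph.cycleGraph 4) k

/-- **FIN**.  Every graph with at most two neighbours at every vertex, with blocks of size 4, has
the wanted colouring.
PROOF.  Strong induction on the number of blocks.  Delete the edges inside the blocks (a colouring
which is proper for the rest and injective on the blocks is proper).  If some vertex `t` has two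
neighbours `v ≠ c` in one block: `hRD1` or `hRD2`, with `hSUB`.  Otherwise `Thin`: `hIT`, `hEX`,
`hMAX`, `hFSC`, `hMCO`, `hEXT` (with `hUNI`). -/
def StFIN : Prop :=
  StIT → StEX → StXCH → StUNI → StCNT → StPTH → StSTP → StPSH → StMAX → StATT → StHDG → StLEF → StFSG →
  StFSC → StMCO → StEXT → StRD1 → StRD2 → StSUB →
  ∀ (V κ : Type) [Fintype V] [DecidableEq V] [Fintype κ] [DecidableEq κ] (G : SimpleGraph V)
    (b : V → κ), Deg2 G → Four b → Goal G b

end F2
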