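import Pool.Agent.Helper73.F2.St

/-!
# Project F2, modules ATT and HDG
-/

namespace Pool.Agent.Helper73.F2

open _root_.F2 Finset

theorem hATT : StATT := by
  classical
  intro V κ _ _ _ _ G b X P hd hfour hprot n y y' hy hy' h1 h2
  by_cases hn : Mate b X P n
  · have hne : n ≠ y := by
      rintro rfl
      exact hy.2 hn.1
    have hne' : n ≠ y' := by
      rintro rfl
      exact hy'.2 hn.1
    rcases h1 with h1 | ⟨_, a, ha, han, hab, hay⟩
    · exact absurd h1 hne
    rcases h2 with h2 | ⟨_, a', ha', han', hab', hay'⟩
    · exact absurd h2 hne'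
    have haa : a = a' := by
      by_contra hcon
      have hsplit : ((univ.filter (fun v => b v = b n)).filter (fun v => v ∈ X)).card +
          ((univ.filter (fun v => b v = b n)).filter (fun v => v ∉ X)).card = 4 := by
        rw [card_filter_add_card_filter_not, hfour (b n)]
      have e1 : (univ.filter (fun v => b v = b n)).filter (fun v => v ∈ X) =
          X.filter (fun v => b v = b n) := by
        ext v
        simp only [mem_filter, mem_univ, true_and]
        exact and_comm
      have h5 := hprot.two (b n) hn.1
      unfold mul at h5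
      rw [e1, h5] at hsplit
      have hsub : ({n, a, a'} : Finset V) ⊆
          (univ.filter (fun v => b v = b n)).filter (fun v => v ∉ X) := by
        intro z hz
        simp only [mem_insert, mem_singleton] at hz
        simp only [mem_filter, mem_univ, true_and]
        rcases hz with rfl | rfl | rfl
        · exact ⟨rfl, hn.2⟩
        · exact ⟨hab, ha.2⟩
        · exact ⟨hab', ha'.2⟩
      have hcard := card_le_card hsub
      have h3 : ({n, a, a'} : Finset V).card = 3 := by
        rw [card_eq_three]
        exact ⟨n, a, a', han.symm, han'.symm, hcon, rfl⟩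
      omega
    subst haa
    obtain ⟨x, hx, hax⟩ := hprot.near a ha
    rcases hd a x y y' hax hay hay' with h | h | h
    · exact absurd (h ▸ hx) hy.1
    · exact absurd (h ▸ hx) hy'.1
    · exact h
  · rcases h1 with h1 | h1
    · rcases h2 with h2 | h2
      · exact h1.symm.trans h2
      · exact absurd h2.1 hn
    · exact absurd h1.1 hn

theorem hHDG : StHDG := by
  classical
  intro hA V κ _ _ _ _ G b X P hd hfour hprot x p q r hp hq hr
  obtain ⟨_, _, hp3, n1, k1, a1⟩ := hp
  obtain ⟨_, _, hq3, n2, k2, a2⟩ := hq
  obtain ⟨_, _, hr3, n3, k3, a3⟩ := hr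
  rcases hd x n1 n2 n3 k1 k2 k3 with h | h | h
  · subst h
    exact Or.inl (hA V κ G b X P hd hfour hprot n1 p q hp3 hq3 a1 a2)
  · subst h
    exact Or.inr (Or.inl (hA V κ G b X P hd hfour hprot n1 p r hp3 hr3 a1 a3))
  · subst h
    exact Or.inr (Or.inr (hA V κ G b X P hd hfour hprot n2 q r hq3 hr3 a2 a3))

end Pool.Agent.Helper73.F2
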