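import Pool.Agent.Helper73.F2.St

/-!
# Project F2, module EX: existence of a least good set
-/

namespace Pool.Agent.Helper73.F2

open _root_.F2 Finset

theorem hEX : StEX := by
  classical
  intro V κ _ _ _ _ G b T hT1 hT2
  -- independent sets containing the transversal
  let F : Finset (Finset V) := univ.filter (fun X => univ.image T ⊆ X ∧
    ∀ x ∈ X, ∀ y ∈ X, ¬ G.Adj x y)
  have hF : F.Nonempty := by
    refine ⟨univ.image T, ?_⟩
    simp only [F, mem_filter, mem_univ, true_and]
    refine ⟨subset_rfl, fun x hx y hy => ?_⟩
    obtain ⟨i, _, rfl⟩ := mem_image.1 hx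
    obtain ⟨j, _, rfl⟩ := mem_image.1 hy
    exact hT2 i j
  obtain ⟨X, hX, hmax⟩ := exists_max_image F card hF
  simp only [F, mem_filter, mem_univ, true_and] at hX
  have hgood : Good G b X := by
    refine ⟨hX.2, fun i => ⟨T i, hX.1 (mem_image_of_mem T (mem_univ i)), hT1 i⟩, ?_⟩
    intro v _
    by_cases hv : v ∈ X
    · exact ⟨v, hv, SimpleGraph.Reachable.refl v⟩
    · by_contra hcon
      have hno : ∀ x ∈ X, ¬ G.Adj v x := fun x hx h => hcon ⟨x, hx, h.reachable⟩
      have hins : insert v X ∈ F := by
        simp only [F, mem_filter, mem_univ, true_and]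
        refine ⟨hX.1.trans (subset_insert v X), fun x hx y hy => ?_⟩
        rcases mem_insert.1 hx with h1 | h1
        · rcases mem_insert.1 hy with h2 | h2
          · rw [h1, h2]
            exact G.loopless.irrefl _
          · rw [h1]
            exact hno y h2
        · rcases mem_insert.1 hy with h2 | h2
          · rw [h2]
            exact fun h => hno x h1 h.symm
          · exact hX.2 x h1 y h2
      have h1 := hmax _ hins
      rw [card_insert_of_notMem hv] at h1
      omega
  let H : Finset (Finset V) := univ.filter (fun X => Good G b X)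
  have hH : H.Nonempty := ⟨X, by simp only [H, mem_filter, mem_univ, true_and]; exact hgood⟩
  obtain ⟨Y, hY, hmin⟩ := exists_min_image H card hH
  simp only [H, mem_filter, mem_univ, true_and] at hY hmin
  exact ⟨Y, hY, fun Z hZ => hmin Z hZ⟩

end Pool.Agent.Helper73.F2
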