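import Pool.Agent.Helper73.F2.St

/-!
# Project F2, module EXT: the final colouring
-/

namespace Pool.Agent.Helper73.F2

open _root_.F2 Finset

/-- active members of `X` -/
inductive Act {V κ : Type} (G : SimpleGraph V) (b : V → κ) (X : Finset V) (P : Finset κ)
    (f : V → Fin 3) (c : κ → V) : V → Prop
  | base (i : κ) (hi : i ∈ P) : Act G b X P f c (c i)
  | step (x w y : V) (hx : Act G b X P f c x) (hxw : G.Adj x w) (hw : Star b X P w)
      (hf : f w = 0) (hy : y ∈ X) (hb : b y = b w) : Act G b X P f c y

theorem act_mem {V κ : Type} {G : SimpleGraph V} {b : V → κ} {X : Finset V} {P : Finset κ}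
    {f : V → Fin 3} {c : κ → V} (hc : ∀ i, c i ∈ X) {x : V} (h : Act G b X P f c x) : x ∈ X := by
  cases h with
  | base i hi => exact hc i
  | step x w y hx hxw hw hf hy hb => exact hy

theorem act_seq {V κ : Type} [DecidableEq κ] {G : SimpleGraph V} {b : V → κ} {X : Finset V}
    {P : Finset κ} {f : V → Fin 3} {c : κ → V} (hc : ∀ i, c i ∈ X) (hb : ∀ i, b (c i) = i)
    (hP : ∀ i ∈ P, mul b X i = 2) {x : V} (h : Act G b X P f c x) :
    ∃ (k : ℕ) (B : ℕ → κ), 2 ≤ mul b X (B 0) ∧
      (∀ i < k, ∃ x ∈ X, b x = B i ∧ ∃ y, G.Reachable x y ∧ b y = B (i + 1)) ∧ b x = B k := by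
  induction h with
  | base i hi =>
    exact ⟨0, fun _ => i, (hP i hi).ge, fun j hj => absurd hj (by omega), hb i⟩
  | step x w y hx hxw hw hf hy hby ih =>
    obtain ⟨k, B, h1, h2, h3⟩ := ih
    refine ⟨k + 1, fun i => if i ≤ k then B i else b y, ?_, ?_, ?_⟩
    · simpa using h1
    · intro i hi
      by_cases hik : i = k
      · subst hik
        refine ⟨x, act_mem hc hx, ?_, w, hxw.reachable, ?_⟩
        · simpa using h3
        · simp [hby]
      · obtain ⟨z, hz, hz1, y', hy', hy2⟩ := h2 i (by omega)
        refine ⟨z, hz, ?_, y', hy', ?_⟩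
        · show b z = if i ≤ k then B i else b y
          rw [if_pos (by omega)]
          exact hz1
        · show b y' = if i + 1 ≤ k then B (i + 1) else b y
          rw [if_pos (by omega)]
          exact hy2
    · simp

theorem hEXT : StEXT := by
  classical
  intro V κ _ _ _ _ G b X P f h hd hfour hthin hgood hprot hone hcol hm1 hm2 hm3 hU
  choose c hcX hcb using hgood.hit
  let A : V → Prop := Act G b X P f c
  have hAX : ∀ x, A x → x ∈ X := fun x hx => act_mem hcX hx
  have hAU : ∀ x, A x → Uniq G X x := by
    intro x hx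
    obtain ⟨k, B, h1, h2, h3⟩ := act_seq hcX hcb hprot.two hx
    exact hU k B h1 h2 x (hAX x hx) h3
  let g : V → Fin 4 := fun v =>
    if v ∈ X then (if A v then 0 else 3)
    else if b v ∈ P then (h v).castSucc
    else if f v = 0 then (if ∃ x, A x ∧ G.Adj x v then 3 else 0)
    else (f v).castSucc
  have gX1 : ∀ v, A v → g v = 0 := by
    intro v hv
    have := hAX v hv
    simp only [g, if_pos this, if_pos hv]
  have gX2 : ∀ v ∈ X, ¬ A v → g v = 3 := by
    intro v hv hA
    simp only [g, if_pos hv, if_neg hA]
  have gM : ∀ v, Mate b X P v → g v = (h v).castSucc := by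
    intro v hv
    simp only [g, if_neg hv.2, if_pos hv.1]
  have gS1 : ∀ v, Star b X P v → f v ≠ 0 → g v = (f v).castSucc := by
    intro v hv hf
    simp only [g, if_neg hv.1, if_neg hv.2, if_neg hf]
  have gS2 : ∀ v, Star b X P v → f v = 0 → (∃ x, A x ∧ G.Adj x v) → g v = 3 := by
    intro v hv hf hx
    simp only [g, if_neg hv.1, if_neg hv.2, if_pos hf, if_pos hx]
  have gS3 : ∀ v, Star b X P v → f v = 0 → ¬ (∃ x, A x ∧ G.Adj x v) → g v = 0 := by
    intro v hv hf hx
    simp only [g, if_neg hv.1, if_neg hv.2, if_pos hf, if_neg hx]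
  have low : ∀ j : Fin 3, j ≠ 0 → j.castSucc ≠ (0 : Fin 4) ∧ j.castSucc ≠ (3 : Fin 4) := by decide
  have h03 : (0 : Fin 4) ≠ 3 := by decide
  have cases3 : ∀ v, v ∈ X ∨ Mate b X P v ∨ Star b X P v := by
    intro v
    by_cases h1 : v ∈ X
    · exact Or.inl h1
    · by_cases h2 : b v ∈ P
      · exact Or.inr (Or.inl ⟨h2, h1⟩)
      · exact Or.inr (Or.inr ⟨h1, h2⟩)
  have gXhigh : ∀ v ∈ X, g v = 0 ∨ g v = 3 := by
    intro v hv
    by_cases hA : A v
    · exact Or.inl (gX1 v hA)
    · exact Or.inr (gX2 v hv hA)
  have gShigh : ∀ v, Star b X P v → f v = 0 → g v = 0 ∨ g v = 3 := by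
    intro v hv hf
    by_cases hA : ∃ x, A x ∧ G.Adj x v
    · exact Or.inr (gS2 v hv hf hA)
    · exact Or.inl (gS3 v hv hf hA)
  have hl : ∀ (j : Fin 3) (a : Fin 4), j ≠ 0 → (a = 0 ∨ a = 3) → a ≠ j.castSucc := by decide
  -- X against mate
  have XM : ∀ u v, u ∈ X → Mate b X P v → g u ≠ g v := by
    intro u v hu hv
    rw [gM v hv]
    exact hl _ _ (hm1 v hv) (gXhigh u hu)
  -- mate against a Star vertex with f = 0
  have MS0 : ∀ u v, Mate b X P u → Star b X P v → f v = 0 → g v ≠ g u := by
    intro u v hu hv hf
    rw [gM u hu]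
    exact hl _ _ (hm1 u hu) (gShigh v hv hf)
  have XS1 : ∀ u v, u ∈ X → Star b X P v → f v ≠ 0 → g u ≠ g v := by
    intro u v hu hv hf
    rw [gS1 v hv hf]
    exact hl _ _ hf (gXhigh u hu)
  have SS01 : ∀ u v, Star b X P u → Star b X P v → f u = 0 → f v ≠ 0 → g u ≠ g v := by
    intro u v hu hv hf hf'
    rw [gS1 v hv hf']
    exact hl _ _ hf' (gShigh u hu hf)
  have XSadj : ∀ u v, G.Adj u v → u ∈ X → Star b X P v → g u ≠ g v := by
    intro u v huv hu hv
    by_cases hf : f v = 0
    · by_cases hA : A u
      · rw [gX1 u hA, gS2 v hv hf ⟨u, hA, huv⟩]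
        exact h03
      · rw [gX2 u hu hA, gS3 v hv hf ?_]
        · exact h03.symm
        · rintro ⟨x, hx, hxv⟩
          have h1 := (hAU x hx).2 u hu (hxv.reachable.trans huv.symm.reachable)
          exact hA (h1 ▸ hx)
    · exact XS1 u v hu hv hf
  have MSadj : ∀ u v, G.Adj u v → Mate b X P u → Star b X P v → g u ≠ g v := by
    intro u v huv hu hv
    by_cases hf : f v = 0
    · exact (MS0 u v hu hv hf).symm
    · rw [gM u hu, gS1 v hv hf]
      intro he
      exact hm3 u v hu hv huv (Fin.castSucc_injective _ he).symm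
  refine ⟨g, ?_, ?_⟩
  · intro u v huv
    rcases cases3 u with hu | hu | hu <;> rcases cases3 v with hv | hv | hv
    · exact absurd huv (hgood.indep u hu v hv)
    · exact XM u v hu hv
    · exact XSadj u v huv hu hv
    · exact (XM v u hv hu).symm
    · exact absurd (hprot.sep u v hu hv huv.reachable) huv.ne
    · exact MSadj u v huv hu hv
    · exact (XSadj v u huv.symm hv hu).symm
    · exact (MSadj v u huv.symm hv hu).symm
    · have hfuv := hcol.proper u v hu hv huv
      by_cases h1 : f u = 0
      · by_cases h2 : f v = 0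
        · exact absurd (h1.trans h2.symm) hfuv
        · exact SS01 u v hu hv h1 h2
      · by_cases h2 : f v = 0
        · exact (SS01 v u hv hu h2 h1).symm
        · rw [gS1 u hu h1, gS1 v hv h2]
          intro he
          exact hfuv (Fin.castSucc_injective _ he)
  · have XXP : ∀ u v, u ∈ X → v ∈ X → b u = b v → b u ∈ P → u ≠ v → g u ≠ g v := by
      have key : ∀ v, v ∈ X → b v ∈ P → v ≠ c (b v) → ¬ A v := by
        intro v hv hvP hne hA
        cases hA with
        | base i hi =>
          rw [hcb i] at hne
          exact hne rfl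
        | step x w y hx hxw hw hf hy hb => exact hw.2 (hb ▸ hvP)
      intro u v hu hv huv hP hne
      have h2 := hprot.two (b u) hP
      have hor : u = c (b u) ∨ v = c (b u) := by
        by_contra hcon
        simp only [not_or] at hcon
        have hsub : ({c (b u), u, v} : Finset V) ⊆ X.filter (fun x => b x = b u) := by
          intro z hz
          simp only [mem_insert, mem_singleton] at hz
          rw [mem_filter]
          rcases hz with rfl | rfl | rfl
          · exact ⟨hcX _, hcb _⟩
          · exact ⟨hu, rfl⟩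
          · exact ⟨hv, huv.symm⟩
        have hcard := card_le_card hsub
        have h3 : ({c (b u), u, v} : Finset V).card = 3 := by
          rw [card_eq_three]
          exact ⟨_, _, _, fun h => hcon.1 h.symm, fun h => hcon.2 h.symm, hne, rfl⟩
        unfold mul at h2
        omega
      rcases hor with h4 | h4
      · have hAu : A u := by
          rw [h4]
          exact Act.base _ (by exact hP)
        have hAv : ¬ A v := key v hv (huv ▸ hP) (by rw [← huv, ← h4]; exact hne.symm)
        rw [gX1 u hAu, gX2 v hv hAv]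
        exact h03
      · have hAv : A v := by
          rw [h4]
          exact Act.base _ hP
        have hAu : ¬ A u := key u hu hP (by rw [← h4]; exact hne)
        rw [gX1 v hAv, gX2 u hu hAu]
        exact h03.symm
    have XSb : ∀ u v, u ∈ X → Star b X P v → b u = b v → g u ≠ g v := by
      intro u v hu hv huv
      by_cases hf : f v = 0
      · by_cases hA : A u
        · have hex : ∃ x, A x ∧ G.Adj x v := by
            cases hA with
            | base i hi =>
              rw [hcb i] at huv
              exact absurd (huv ▸ hi) hv.2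
            | step x w y hx hxw hw hf' hy hb =>
              have : w = v := hcol.inj w v hw hv (hb.symm.trans huv) (hf'.trans hf.symm)
              subst this
              exact ⟨x, hx, hxw⟩
          rw [gX1 u hA, gS2 v hv hf hex]
          exact h03
        · rw [gX2 u hu hA, gS3 v hv hf ?_]
          · exact h03.symm
          · rintro ⟨x, hx, hxv⟩
            exact hA (Act.step x v u hx hxv hv hf hu huv)
      · exact XS1 u v hu hv hf
    intro u v huv he
    by_contra hne
    rcases cases3 u with hu | hu | hu <;> rcases cases3 v with hv | hv | hv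
    · by_cases hP : b u ∈ P
      · exact XXP u v hu hv huv hP hne he
      · have h1 := hone (b u) hP
        unfold mul at h1
        rw [card_eq_one] at h1
        obtain ⟨z, hz⟩ := h1
        have e1 : u ∈ X.filter (fun x => b x = b u) := mem_filter.2 ⟨hu, rfl⟩
        have e2 : v ∈ X.filter (fun x => b x = b u) := mem_filter.2 ⟨hv, huv.symm⟩
        rw [hz, mem_singleton] at e1 e2
        exact hne (e1.trans e2.symm)
    · exact XM u v hu hv he
    · exact XSb u v hu hv huv he
    · exact XM v u hv hu he.symm
    · rw [gM u hu, gM v hv] at he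
      exact hm2 u v hu hv hne huv (Fin.castSucc_injective _ he)
    · exact hv.2 (huv ▸ hu.1)
    · exact XSb v u hv hu huv.symm he.symm
    · exact hu.2 (huv ▸ hv.1)
    · by_cases h1 : f u = 0
      · by_cases h2 : f v = 0
        · exact hne (hcol.inj u v hu hv huv (h1.trans h2.symm))
        · exact SS01 u v hu hv h1 h2 he
      · by_cases h2 : f v = 0
        · exact SS01 v u hv hu h2 h1 he.symm
        · rw [gS1 u hu h1, gS1 v hv h2] at he
          exact hne (hcol.inj u v hu hv huv (Fin.castSucc_injective _ he))

end Pool.Agent.Helper73.F2
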