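import Pool.Agent.Helper73.F2.St

/-!
# Project F2: the induction on the number of blocks
-/

namespace Pool.Agent.Helper73.F2

open _root_.F2 Finset

/-- the edges between different blocks -/
def outG {V κ : Type} (G : SimpleGraph V) (b : V → κ) : SimpleGraph V where
  Adj u v := G.Adj u v ∧ b u ≠ b v
  symm := ⟨fun _ _ h => ⟨h.1.symm, h.2.symm⟩⟩
  loopless := ⟨fun u h => h.2 rfl⟩

theorem goal_of_out {V κ : Type} (G : SimpleGraph V) (b : V → κ) (h : Goal (outG G b) b) :
    Goal G b := by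
  obtain ⟨g, h1, h2⟩ := h
  refine ⟨g, fun u v huv he => ?_, h2⟩
  by_cases hb : b u = b v
  · exact huv.ne (h2 u v hb he)
  · exact h1 u v ⟨huv, hb⟩ he

theorem hFIN : StFIN := by
  intro hIT hEX hXCH hUNI hCNT hPTH hSTP hPSH hMAX hATT hHDG hLEF hFSG hFSC hMCO hEXT hRD1 hRD2
    hSUB
  have main : ∀ n : ℕ, ∀ (V κ : Type) [Fintype V] [DecidableEq V] [Fintype κ] [DecidableEq κ]
      (G : SimpleGraph V) (b : V → κ), Fintype.card κ = n → Deg2 G → Four b → Goal G b := by
    intro n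
    induction n using Nat.strong_induction_on with
    | _ n ih =>
      intro V κ _ _ _ _ G b hn hd hf
      apply goal_of_out
      have hd1 : Deg2 (outG G b) := fun x p q r h1 h2 h3 => hd x p q r h1.1 h2.1 h3.1
      have hin : ∀ u v, (outG G b).Adj u v → b u ≠ b v := fun u v h => h.2
      have hRest : ∀ B, Rest b B := fun B =>
        hSUB V κ b B hf (fun V' κ' _ _ _ _ G' b' hc hd' hf' =>
          ih (Fintype.card κ') (by omega) V' κ' G' b' rfl hd' hf')
      by_cases ht : Thin (outG G b) b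
      · obtain ⟨T, hT1, hT2⟩ := hIT V κ (outG G b) b hd1 hf ht
        obtain ⟨X₀, hX₀⟩ := hEX V κ (outG G b) b T hT1 hT2
        obtain ⟨X, P, hX, hP, hone⟩ :=
          hMAX hUNI hCNT hPTH hPSH hXCH hSTP V κ (outG G b) b X₀ hf ht hX₀
        obtain ⟨f, hcol⟩ := hFSC hATT hHDG hLEF hFSG V κ (outG G b) b X P hd1 hf ht hX.1 hP hone
        obtain ⟨h, k1, k2, k3⟩ := hMCO V κ (outG G b) b X P f hd1 hf hP hcol
        exact hEXT V κ (outG G b) b X P f h hd1 hf ht hX.1 hP hone hcol k1 k2 k3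
          (fun k B h2 hs x hx hb => hUNI hXCH V κ (outG G b) b k X hX B h2 hs x hx hb)
      · have hex : ∃ t u v, (outG G b).Adj t u ∧ (outG G b).Adj t v ∧ b u = b v ∧ u ≠ v := by
          by_contra hcon
          apply ht
          refine ⟨hin, fun t u v h1 h2 h3 => ?_⟩
          by_contra h4
          exact hcon ⟨t, u, v, h1, h2, h3, h4⟩
        obtain ⟨t, v, c, h1, h2, h3, h4⟩ := hex
        by_cases hq : ∃ q, (outG G b).Adj q v ∧ (outG G b).Adj q c ∧ t ≠ q
        · obtain ⟨q, q1, q2, q3⟩ := hq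
          exact hRD1 V κ (outG G b) b t q v c hd1 hf hin h1 h2 q1 q2 q3 h4 h3 (hRest _)
        · refine hRD2 V κ (outG G b) b t v c hd1 hf hin h1 h2 (fun q q1 q2 => ?_) h4 h3 (hRest _)
          by_contra h5
          exact hq ⟨q, q1, q2, fun h => h5 h.symm⟩
  intro V κ _ _ _ _ G b hd hf
  exact main _ V κ G b rfl hd hf

end Pool.Agent.Helper73.F2
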