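import Pool.Agent.Helper73.F2.St

/-!
# Project F2, module FSC: the 3-colouring of the Star vertices
-/

namespace Pool.Agent.Helper73.F2

open _root_.F2 Finset

theorem hFSC : StFSC := by
  classical
  intro hATT hHDG hLEF hFSG V κ _ _ _ _ G b X P hd hfour hthin hgood hprot hone
  have h1 := hHDG hATT V κ G b X P hd hfour hprot
  have h2 := hLEF hATT V κ G b X P hd hfour hgood hprot
  have hmem : ∀ v, v ∈ univ.filter (fun v => Star b X P v) ↔ Star b X P v := by
    intro v
    simp
  have h3 : ∀ i ∈ univ.filter (fun i : κ => i ∉ P),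
      ((univ.filter (fun v => Star b X P v)).filter (fun v => b v = i)).card = 3 := by
    intro i hi
    have hi' : i ∉ P := by simpa using hi
    have hsplit : ((univ.filter (fun v => b v = i)).filter (fun v => v ∈ X)).card +
        ((univ.filter (fun v => b v = i)).filter (fun v => v ∉ X)).card = 4 := by
      rw [card_filter_add_card_filter_not, hfour i]
    have e1 : (univ.filter (fun v => b v = i)).filter (fun v => v ∈ X) =
        X.filter (fun v => b v = i) := by
      ext v
      simp only [mem_filter, mem_univ, true_and]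
      exact and_comm
    have e2 : (univ.filter (fun v => b v = i)).filter (fun v => v ∉ X) =
        (univ.filter (fun v => Star b X P v)).filter (fun v => b v = i) := by
      ext v
      simp only [mem_filter, mem_univ, true_and, _root_.F2.Star]
      constructor
      · rintro ⟨k1, k2⟩
        exact ⟨⟨k2, by rw [k1]; exact hi'⟩, k1⟩
      · rintro ⟨⟨k1, _⟩, k2⟩
        exact ⟨k2, k1⟩
    have h5 := hone i hi'
    unfold mul at h5
    rw [e1, e2, h5] at hsplit
    omega
  obtain ⟨f, f1, f2⟩ := hFSG V κ (HS G b X P) b (univ.filter (fun v => Star b X P v))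
    (univ.filter (fun i : κ => i ∉ P)) h1 h2 h3
  refine ⟨f, ?_, ?_, ?_⟩
  · intro u v hu hv huv
    exact f1 u ((hmem u).2 hu) v ((hmem v).2 hv) ⟨huv.ne, hu, hv, v, huv, Or.inl rfl⟩
  · intro u v hu hv hb he
    exact f2 u ((hmem u).2 hu) v ((hmem v).2 hv) hb (by simpa using hu.2) he
  · intro a a' u v ha ha' hne hb hu hv hau hav
    have huv : u ≠ v := by
      intro h
      subst h
      exact hne (hthin.2 u a a' hau.symm hav.symm hb)
    exact f1 u ((hmem u).2 hu) v ((hmem v).2 hv)
      ⟨huv, hu, hv, a, hau.symm, Or.inr ⟨ha, a', ha', hne.symm, hb.symm, hav⟩⟩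

end Pool.Agent.Helper73.F2
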