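import Pool.Agent.Helper73.F2.St

/-!
# Project F2, module MCO: colours for the mates
-/

namespace Pool.Agent.Helper73.F2

open _root_.F2 Finset

theorem hMCO : StMCO := by
  classical
  intro V κ _ _ _ _ G b X P f hd hfour hprot hcol
  -- the two mates of a protected block
  have hex : ∀ i, ∃ p : V × V, i ∈ P →
      (∀ a, (b a = i ∧ a ∉ X) ↔ (a = p.1 ∨ a = p.2)) ∧ p.1 ≠ p.2 := by
    intro i
    by_cases hi : i ∈ P
    · have h2 := hprot.two i hi
      have h4 := hfour i
      have hsplit : ((univ.filter (fun v => b v = i)).filter (fun v => v ∈ X)).card +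
          ((univ.filter (fun v => b v = i)).filter (fun v => v ∉ X)).card = 4 := by
        rw [card_filter_add_card_filter_not, h4]
      have e1 : (univ.filter (fun v => b v = i)).filter (fun v => v ∈ X) =
          X.filter (fun v => b v = i) := by
        ext v
        simp only [mem_filter, mem_univ, true_and]
        exact and_comm
      have h5 : ((univ.filter (fun v => b v = i)).filter (fun v => v ∉ X)).card = 2 := by
        unfold mul at h2
        rw [e1, h2] at hsplit
        omega
      rw [card_eq_two] at h5
      obtain ⟨p, q, hpq, h6⟩ := h5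
      refine ⟨(p, q), fun _ => ⟨fun a => ?_, hpq⟩⟩
      have h7 : a ∈ (univ.filter (fun v => b v = i)).filter (fun v => v ∉ X) ↔ a ∈ ({p, q} : Finset V) := by
        rw [h6]
      simpa only [mem_filter, mem_univ, true_and, mem_insert, mem_singleton] using h7
    · by_cases hne : Nonempty V
      · exact ⟨(hne.some, hne.some), fun h => absurd h hi⟩
      · exfalso
        have h4 := hfour i
        have : univ.filter (fun v => b v = i) = ∅ := by
          ext v
          exact absurd ⟨v⟩ hne
        rw [this] at h4
        simp at h4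
  choose p hp using hex
  -- at most one Star neighbour
  have huni : ∀ a, Mate b X P a → ∀ u v, Star b X P u → Star b X P v → G.Adj a u → G.Adj a v →
      u = v := by
    intro a ha u v hu hv hau hav
    obtain ⟨x, hx, hax⟩ := hprot.near a ha
    rcases hd a x u v hax hau hav with h | h | h
    · exact absurd (h ▸ hx) hu.1
    · exact absurd (h ▸ hx) hv.1
    · exact h
  -- the choice in one block
  let bad : V → Fin 3 → Prop := fun a j => ∃ v, Star b X P v ∧ G.Adj a v ∧ f v = j
  let h : V → Fin 3 := fun a =>
    if bad (p (b a)).1 1 ∨ bad (p (b a)).2 2 then (if a = (p (b a)).1 then 2 else 1)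
    else (if a = (p (b a)).1 then 1 else 2)
  have h12 : (1 : Fin 3) ≠ 2 := by decide
  refine ⟨h, ?_, ?_, ?_⟩
  · intro a ha
    simp only [h]
    split_ifs <;> decide
  · intro a a' ha ha' hne hb
    obtain ⟨k1, k2⟩ := hp (b a) ha.1
    have m1 := (k1 a).1 ⟨rfl, ha.2⟩
    have m2 := (k1 a').1 ⟨hb.symm, ha'.2⟩
    simp only [h]
    rw [← hb]
    rcases m1 with m1 | m1 <;> rcases m2 with m2 | m2
    · exact absurd (m1.trans m2.symm) hne
    · have n1 : a' ≠ (p (b a)).1 := fun hh => hne (m1.trans hh.symm)
      rw [if_pos m1, if_neg n1, if_pos m1, if_neg n1]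
      split_ifs <;> decide
    · have n1 : a ≠ (p (b a)).1 := fun hh => hne (hh.trans m2.symm)
      rw [if_pos m2, if_neg n1, if_pos m2, if_neg n1]
      split_ifs <;> decide
    · exact absurd (m1.trans m2.symm) hne
  · intro a v ha hv hav he
    obtain ⟨k1, k2⟩ := hp (b a) ha.1
    have m1 := (k1 a).1 ⟨rfl, ha.2⟩
    have q1 := (k1 (p (b a)).1).2 (Or.inl rfl)
    have q2 := (k1 (p (b a)).2).2 (Or.inr rfl)
    have M1 : Mate b X P (p (b a)).1 := ⟨by rw [q1.1]; exact ha.1, q1.2⟩
    have M2 : Mate b X P (p (b a)).2 := ⟨by rw [q2.1]; exact ha.1, q2.2⟩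
    have hb12 : b (p (b a)).1 = b (p (b a)).2 := q1.1.trans q2.1.symm
    have hbad : bad a (f v) := ⟨v, hv, hav, rfl⟩
    -- two bad colours of one mate are equal
    have buni : ∀ a, Mate b X P a → ∀ i j, bad a i → bad a j → i = j := by
      rintro a ha i j ⟨u, hu1, hu2, hu3⟩ ⟨w, hw1, hw2, hw3⟩
      rw [← hu3, ← hw3, huni a ha u w hu1 hw1 hu2 hw2]
    -- equal bad colours of the two mates are impossible
    have bout : ∀ i, bad (p (b a)).1 i → bad (p (b a)).2 i → False := by
      rintro i ⟨u, hu1, hu2, hu3⟩ ⟨w, hw1, hw2, hw3⟩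
      exact hcol.outer _ _ u w M1 M2 k2 hb12 hu1 hw1 hu2 hw2 (hu3.trans hw3.symm)
    simp only [h] at he
    by_cases hc : bad (p (b a)).1 1 ∨ bad (p (b a)).2 2
    · rw [if_pos hc] at he
      by_cases hA : a = (p (b a)).1
      · rw [if_pos hA] at he
        rw [he] at hbad
        have hbad' : bad (p (b a)).1 2 := by rwa [← hA]
        rcases hc with hc | hc
        · exact h12 (buni _ M1 1 2 hc hbad')
        · exact bout 2 hbad' hc
      · rw [if_neg hA] at he
        rw [he] at hbad
        have hA2 : a = (p (b a)).2 := by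
          rcases m1 with m1 | m1
          · exact absurd m1 hA
          · exact m1
        have hbad' : bad (p (b a)).2 1 := by rwa [← hA2]
        rcases hc with hc | hc
        · exact bout 1 hc hbad'
        · exact h12 (buni _ M2 1 2 hbad' hc)
    · rw [if_neg hc] at he
      by_cases hA : a = (p (b a)).1
      · rw [if_pos hA] at he
        rw [he] at hbad
        exact hc (Or.inl (by rwa [← hA]))
      · rw [if_neg hA] at he
        rw [he] at hbad
        have hA2 : a = (p (b a)).2 := by
          rcases m1 with m1 | m1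
          · exact absurd m1 hA
          · exact m1
        exact hc (Or.inr (by rwa [← hA2]))

end Pool.Agent.Helper73.F2
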