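import Pool.Agent.Helper73.F2.St

/-!
# Project F2, module PTH: shortest paths
-/

namespace Pool.Agent.Helper73.F2

open _root_.F2 Finset

theorem hPTH : StPTH := by
  classical
  intro κ r i j hij hr
  have hex : ∃ s : ℕ, ∃ B : ℕ → κ, B 0 = i ∧ B s = j ∧ ∀ k < s, r (B k) (B (k + 1)) := by
    induction hr with
    | refl => exact ⟨0, fun _ => i, rfl, rfl, fun k hk => absurd hk (by omega)⟩
    | @tail m n _ hmn ih =>
      by_cases him : i = m
      · subst him
        refine ⟨1, fun k => if k = 0 then i else n, by simp, by simp, ?_⟩
        intro k hk
        have : k = 0 := by omega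
        subst this
        simpa using hmn
      · obtain ⟨s, B, h1, h2, h3⟩ := ih him
        refine ⟨s + 1, fun k => if k ≤ s then B k else n, by simpa using h1, by simp, ?_⟩
        intro k hk
        by_cases hks : k = s
        · subst hks
          simpa [h2] using hmn
        · have e1 : k ≤ s := by omega
          have e2 : k + 1 ≤ s := by omega
          simp only [if_pos e1, if_pos e2]
          exact h3 k (by omega)
  obtain ⟨B, h1, h2, h3⟩ := Nat.find_spec hex
  have hmin := fun m (hm : m < Nat.find hex) => Nat.find_min hex hm
  set s := Nat.find hex with hs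
  have hs1 : 1 ≤ s := by
    by_contra hcon
    have h0 : s = 0 := by omega
    rw [h0] at h2
    exact hij (h1.symm.trans h2)
  have hcut : ∀ k l, k < l → l ≤ s → B k = B l → False := by
    intro k l hkl hls hB
    refine hmin (s - (l - k)) (by omega)
      ⟨fun m => if m ≤ k then B m else B (m + (l - k)), ?_, ?_, ?_⟩
    · simpa using h1
    · by_cases hl : l = s
      · have e1 : s - (l - k) = k := by omega
        simp only [e1, le_refl, if_true]
        rw [hB, hl, h2]
      · have e1 : ¬ (s - (l - k) ≤ k) := by omega
        have e2 : s - (l - k) + (l - k) = s := by omega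
        simp only [if_neg e1, e2]
        exact h2
    · intro m hm
      by_cases e1 : m + 1 ≤ k
      · have e0 : m ≤ k := by omega
        simp only [if_pos e1, if_pos e0]
        exact h3 m (by omega)
      · by_cases e2 : m ≤ k
        · have e3 : m = k := by omega
          subst e3
          simp only [le_refl, if_true, if_neg e1]
          have e4 : m + 1 + (l - m) = l + 1 := by omega
          rw [e4, hB]
          exact h3 l (by omega)
        · simp only [if_neg e1, if_neg e2]
          have e4 : m + 1 + (l - k) = m + (l - k) + 1 := by omega
          rw [e4]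
          exact h3 _ (by omega)
  refine ⟨s, B, hs1, h1, h2, h3, ?_, ?_⟩
  · intro k hk l hl hB
    by_contra hne
    rcases Nat.lt_or_gt_of_ne hne with h | h
    · exact hcut k l h hl hB
    · exact hcut l k h hk hB.symm
  · intro k hk hrk
    refine hmin (k + 1) hk ⟨fun m => if m ≤ k then B m else j, ?_, ?_, ?_⟩
    · simpa using h1
    · simp
    · intro m hm
      by_cases e1 : m = k
      · subst e1
        simpa using hrk
      · have e2 : m ≤ k := by omega
        have e3 : m + 1 ≤ k := by omega
        simp only [if_pos e2, if_pos e3]
        exact h3 m (by omega)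

end Pool.Agent.Helper73.F2
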