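import Pool.Agent.Helper73.F2.St

/-!
# Project F2, module SUB: instances with fewer blocks
-/

namespace Pool.Agent.Helper73.F2

open _root_.F2 Finset

theorem hSUB : StSUB := by
  classical
  intro V κ _ _ _ _ b B hfour hind G' hdeg
  let b' : {v : V // b v ≠ B} → {i : κ // i ≠ B} := fun v => ⟨b v.1, v.2⟩
  have hcard : Fintype.card {i : κ // i ≠ B} < Fintype.card κ := by
    apply Fintype.card_subtype_lt (x := B)
    simp
  have hd : Deg2 (G'.comap (Subtype.val : {v : V // b v ≠ B} → V)) := by
    intro x p q r h1 h2 h3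
    rcases hdeg x.1 p.1 q.1 r.1 x.2 p.2 q.2 r.2 h1 h2 h3 with h | h | h
    · exact Or.inl (Subtype.ext h)
    · exact Or.inr (Or.inl (Subtype.ext h))
    · exact Or.inr (Or.inr (Subtype.ext h))
  have hf : Four b' := by
    intro i
    rw [← hfour i.1]
    have : (univ.filter (fun v => b v = i.1)) =
        (univ.filter (fun v : {v : V // b v ≠ B} => b' v = i)).map
          (Function.Embedding.subtype _) := by
      ext v
      simp only [mem_filter, mem_univ, true_and, mem_map, Function.Embedding.coe_subtype]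
      constructor
      · intro hv
        exact ⟨⟨v, by rw [hv]; exact i.2⟩, Subtype.ext hv, rfl⟩
      · rintro ⟨w, hw, rfl⟩
        exact congrArg Subtype.val hw
    rw [this, card_map]
  obtain ⟨g, g1, g2⟩ := hind _ _ (G'.comap (Subtype.val : {v : V // b v ≠ B} → V)) b' hcard hd hf
  refine ⟨fun v => if h : b v ≠ B then g ⟨v, h⟩ else 0, ?_, ?_⟩
  · intro x y hx hy hxy
    simp only [dif_pos hx, dif_pos hy]
    exact g1 ⟨x, hx⟩ ⟨y, hy⟩ hxy
  · intro x y hx hxy
    have hy : b y ≠ B := hxy ▸ hx
    simp only [dif_pos hx, dif_pos hy]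
    intro h
    have := g2 ⟨x, hx⟩ ⟨y, hy⟩ (Subtype.ext hxy) h
    exact congrArg Subtype.val this

end Pool.Agent.Helper73.F2
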