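import Pool.Agent.Helper73.F2.St
import Pool.Agent.Helper95.SC.Main3

/-!
# Project F2: from block colourings to strong colourability
-/

namespace Pool.Agent.Helper73.F2

open _root_.F2 Finset

/-- the main statement on blocks -/
def All4 : Prop :=
  ∀ (V κ : Type) [Fintype V] [DecidableEq V] [Fintype κ] [DecidableEq κ] (G : SimpleGraph V)
    (b : V → κ), Deg2 G → Four b → Goal G b

theorem sys_four (h : All4) {W : Type} [Fintype W] (G : SimpleGraph W) (hd : Deg2 G) :
    SC.Sys G 4 := by
  classical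
  intro κ _ _ e
  refine h W κ G (fun w => (e w).1) hd ?_
  intro i
  have h1 : (univ.filter (fun w : W => (e w).1 = i)) =
      (univ : Finset (Fin 4)).map ⟨fun j => e.symm (i, j), fun j k hjk => by
        simpa using e.symm.injective hjk⟩ := by
    ext w
    simp only [mem_filter, mem_univ, true_and, mem_map, Function.Embedding.coeFn_mk]
    constructor
    · intro hw
      refine ⟨(e w).2, ?_⟩
      rw [Equiv.symm_apply_eq, ← hw]
    · rintro ⟨j, rfl⟩
      simp
  rw [h1, card_map, card_univ, Fintype.card_fin]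

theorem deg2_pad {V : Type} [Fintype V] (G : SimpleGraph V) (r : ℕ)
    (hG : ∀ v, (G.neighborSet v).ncard ≤ 2) : Deg2 (SC.pad G r) := by
  intro x p q s h1 h2 h3
  obtain ⟨x1, p1, hx1, hp1, k1⟩ := SC.pad_adj G r x p h1
  obtain ⟨x2, q1, hx2, hq1, k2⟩ := SC.pad_adj G r x q h2
  obtain ⟨x3, s1, hx3, hs1, k3⟩ := SC.pad_adj G r x s h3
  subst hp1 hq1 hs1
  have e2 : x1 = x2 := Sum.inl_injective (hx1.symm.trans hx2)
  have e3 : x1 = x3 := Sum.inl_injective (hx1.symm.trans hx3)
  subst e2 e3
  rcases SC.three_of_ncard G hG x1 p1 q1 s1 k1 k2 k3 with h | h | h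
  · exact Or.inl (congrArg _ h)
  · exact Or.inr (Or.inl (congrArg _ h))
  · exact Or.inr (Or.inr (congrArg _ h))

theorem strong4 (h : All4) {V : Type} [Fintype V] (G : SimpleGraph V)
    (hG : ∀ v, (G.neighborSet v).ncard ≤ 2) : SC.StronglyColourable G 4 := by
  unfold SC.StronglyColourable
  exact SC.strongOn_of_sys _ _ (sys_four h _ (deg2_pad G _ hG))

theorem c4_deg (v : Fin 4) : ((SimpleGraph.cycleGraph 4).neighborSet v).ncard = 2 := by
  have h : (SimpleGraph.cycleGraph 4).neighborSet v = {v - 1, v + 1} := by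
    ext w
    simp only [SimpleGraph.mem_neighborSet, SimpleGraph.cycleGraph_adj', Set.mem_insert_iff,
      Set.mem_singleton_iff]
    revert v w
    decide
  have h2 : ∀ v : Fin 4, v - 1 ≠ v + 1 := by decide
  rw [h]
  exact Set.ncard_pair (h2 v)

theorem c4_schi (h : All4) (hC : StCF4) : SC.schi (SimpleGraph.cycleGraph 4) = 4 := by
  have h4 := strong4 h (SimpleGraph.cycleGraph 4) (fun v => (c4_deg v).le)
  apply le_antisymm
  · exact SC.schi_le _ 4 (by norm_num) h4
  · have hne : {k | 0 < k ∧ SC.StronglyColourable (SimpleGraph.cycleGraph 4) k}.Nonempty :=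
      ⟨4, by norm_num, h4⟩
    have h := Nat.sInf_mem hne
    by_contra hlt
    exact hC _ h.1 (not_le.1 hlt) h.2

end Pool.Agent.Helper73.F2
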